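import Mathlib

set_option autoImplicit false

namespace Pool.Agent.H.MP_7b5b6d_co

open Finset

/-- proper edge colouring with colours in `C` -/
structure PC {V : Type*} (H : SimpleGraph V) (C : Finset ℕ) (c : V → V → ℕ) : Prop where
  symm : ∀ x y, c x y = c y x
  mem : ∀ x y, H.Adj x y → c x y ∈ C
  inj : ∀ x y z, H.Adj x y → H.Adj x z → c x y = c x z → y = z

lemma few_low {W : Type*} [Fintype W] (T : SimpleGraph W) [DecidableRel T.Adj]
    (hc : T.Connected) (h2 : ∀ v, T.degree v ≤ 2) (S : Finset W)
    (h1 : ∀ v ∈ S, T.degree v ≤ 1) : S.card ≤ 2 := by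
  classical
  have a := hc.card_vert_le_card_edgeSet_add_one
  have b := T.sum_degrees_eq_twice_card_edges
  have c : ∑ v, (T.degree v + if v ∈ S then 1 else 0) ≤ ∑ _v : W, 2 := by
    apply Finset.sum_le_sum
    intro v _
    by_cases h : v ∈ S
    · have := h1 v h
      simp only [h, if_true]; omega
    · have := h2 v
      simp only [h, if_false]; omega
  rw [Finset.sum_add_distrib, b] at c
  simp only [Finset.sum_ite_mem, Finset.univ_inter, Finset.sum_const, smul_eq_mul, mul_one,
    Finset.card_univ] at c
  rw [Nat.card_eq_fintype_card, Nat.card_eq_fintype_card, ← SimpleGraph.edgeFinset_card] at a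
  omega

/-- the two-coloured subgraph -/
def two {V : Type*} (H : SimpleGraph V) (c : V → V → ℕ) (hs : ∀ x y, c x y = c y x) (a b : ℕ) :
    SimpleGraph V where
  Adj x y := H.Adj x y ∧ (c x y = a ∨ c x y = b)
  symm := ⟨fun x y h => ⟨h.1.symm, by rw [hs y x]; exact h.2⟩⟩
  loopless := ⟨fun x h => H.irrefl h.1⟩

lemma comp_low {V : Type*} [Fintype V] {H : SimpleGraph V} {C : Finset ℕ} {c : V → V → ℕ}
    (h : PC H C c) (a b : ℕ) (K : (two H c h.symm a b).ConnectedComponent) (S : Finset V)
    (hS : ∀ u ∈ S, u ∈ K.supp ∧ ∀ w, H.Adj u w → c u w ≠ a) : S.card ≤ 2 := by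
  classical
  have key : ∀ (v : K) (D : Finset ℕ), (∀ w, H.Adj v w → (c v w = a ∨ c v w = b) → c v w ∈ D) →
      K.toSimpleGraph.degree v ≤ D.card := by
    intro v D hD
    rw [← SimpleGraph.card_neighborFinset_eq_degree]
    apply Finset.card_le_card_of_injOn (fun w : K => c v w)
    · intro w hw
      have hw' : (two H c h.symm a b).Adj v w := by
        simpa [SimpleGraph.ConnectedComponent.toSimpleGraph] using hw
      exact hD w hw'.1 hw'.2
    · intro w hw z hz e
      have hw' : (two H c h.symm a b).Adj v w := by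
        simpa [SimpleGraph.ConnectedComponent.toSimpleGraph] using hw
      have hz' : (two H c h.symm a b).Adj v z := by
        simpa [SimpleGraph.ConnectedComponent.toSimpleGraph] using hz
      exact Subtype.ext (h.inj _ _ _ hw'.1 hz'.1 e)
  have := few_low K.toSimpleGraph K.connected_toSimpleGraph (fun v => by
      refine (key v {a, b} ?_).trans Finset.card_le_two
      intro w _ hw
      simpa using hw)
    (Finset.univ.filter fun v : K => (v : V) ∈ S) (fun v hv => by
      have hv' : (v : V) ∈ S := by simpa using hv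
      refine (key v {b} ?_).trans (by simp)
      intro w hw hc
      rcases hc with hc | hc
      · exact absurd hc ((hS v hv').2 w hw)
      · simpa using hc)
  refine le_trans ?_ this
  apply Finset.card_le_card_of_surjOn (fun v : K => (v : V))
  intro u hu
  have hu' : u ∈ S := by simpa using hu
  exact ⟨⟨u, (hS u hu').1⟩, by simpa using hu', rfl⟩

/-- valid lists of missing colours -/
def VL {V : Type*} (H : SimpleGraph V) (C : Finset ℕ) (c : V → V → ℕ) (N : Finset V)
    (L : V → Finset ℕ) : Prop :=
  ∀ u ∈ N, L u ⊆ C ∧ ∀ w, H.Adj u w → c u w ∉ L u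

open Classical in
/-- the number of listed occurrences of a colour -/
noncomputable def X {V : Type*} (N : Finset V) (L : V → Finset ℕ) (i : ℕ) : ℕ :=
  (N.filter fun u => i ∈ L u).card

lemma kempe {V : Type*} [Fintype V] {H : SimpleGraph V} {C : Finset ℕ} {c : V → V → ℕ}
    (h : PC H C c) (N : Finset V) (L : V → Finset ℕ) (hL : VL H C c N L) (a b : ℕ)
    (ha : a ∈ C) (hb : b ∈ C) (hab : X N L b + 3 ≤ X N L a) :
    ∃ c' L', PC H C c' ∧ VL H C c' N L' ∧ (∀ u, (L' u).card = (L u).card) ∧
      ∑ i ∈ C, (X N L' i) ^ 2 < ∑ i ∈ C, (X N L i) ^ 2 := by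
  classical
  have hne : a ≠ b := by rintro rfl; omega
  set T := two H c h.symm a b with hT
  obtain ⟨K, hK⟩ : ∃ K : T.ConnectedComponent,
      ((N.filter fun u => b ∈ L u).filter fun u => T.connectedComponentMk u = K).card <
      ((N.filter fun u => a ∈ L u).filter fun u => T.connectedComponentMk u = K).card := by
    by_contra hcon
    push Not at hcon
    have e1 := Finset.card_eq_sum_card_fiberwise (s := N.filter fun u => a ∈ L u)
      (t := (Finset.univ : Finset T.ConnectedComponent)) (f := T.connectedComponentMk)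
      (fun _ _ => by simp)
    have e2 := Finset.card_eq_sum_card_fiberwise (s := N.filter fun u => b ∈ L u)
      (t := (Finset.univ : Finset T.ConnectedComponent)) (f := T.connectedComponentMk)
      (fun _ _ => by simp)
    have e3 := Finset.sum_le_sum (s := (Finset.univ : Finset T.ConnectedComponent))
      (fun K _ => hcon K)
    unfold X at hab
    rw [← e1, ← e2] at e3
    have : (N.filter fun u => b ∈ L u).card + 3 ≤ (N.filter fun u => a ∈ L u).card := by
      convert hab
    omega
  have hlow : ((N.filter fun u => a ∈ L u).filter fun u => T.connectedComponentMk u = K).card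
      ≤ 2 := by
    apply comp_low h a b K
    intro u hu
    simp only [Finset.mem_filter] at hu
    refine ⟨hu.2, fun w hw e => (hL u hu.1.1).2 w hw (e ▸ hu.1.2)⟩
  set P : V → Prop := fun u => T.connectedComponentMk u = K with hP
  have hcl : ∀ x y, H.Adj x y → ¬ P x → P y → Equiv.swap a b (c x y) = c x y := by
    intro x y hxy hx hy
    apply Equiv.swap_apply_of_ne_of_ne
    · intro e
      exact hx ((SimpleGraph.ConnectedComponent.connectedComponentMk_eq_of_adj
        (G := T) ⟨hxy, Or.inl e⟩).trans hy)
    · intro e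
      exact hx ((SimpleGraph.ConnectedComponent.connectedComponentMk_eq_of_adj
        (G := T) ⟨hxy, Or.inr e⟩).trans hy)
  let c' : V → V → ℕ := fun x y => if P x ∨ P y then Equiv.swap a b (c x y) else c x y
  have c1 : ∀ x y, P x → c' x y = Equiv.swap a b (c x y) := by
    intro x y hx; simp only [c', hx, true_or, if_true]
  have c2 : ∀ x y, H.Adj x y → ¬ P x → c' x y = c x y := by
    intro x y hxy hx
    by_cases hy : P y
    · simp only [c', hy, or_true, if_true]; exact hcl x y hxy hx hy
    · simp only [c', hx, hy, or_self, if_false]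
  have hsw : ∀ i ∈ C, Equiv.swap a b i ∈ C := by
    intro i hi
    by_cases h1 : i = a
    · subst h1; simpa using hb
    · by_cases h2 : i = b
      · subst h2; simpa using ha
      · rwa [Equiv.swap_apply_of_ne_of_ne h1 h2]
  let L' : V → Finset ℕ := fun u => if P u then (L u).map (Equiv.swap a b).toEmbedding else L u
  have l1 : ∀ u i, P u → (i ∈ L' u ↔ Equiv.swap a b i ∈ L u) := by
    intro u i hu
    simp only [L', hu, if_true, Finset.mem_map_equiv, Equiv.symm_swap]
  have l2 : ∀ u, ¬ P u → L' u = L u := by
    intro u hu; simp only [L', hu, if_false]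
  have hx : ∀ (M : V → Finset ℕ) i, X N M i = ((N.filter fun u => i ∈ M u).filter P).card +
      ((N.filter fun u => i ∈ M u).filter fun u => ¬ P u).card := by
    intro M i
    unfold X
    rw [Finset.card_filter_add_card_filter_not]
  have hx1 : ∀ i, ((N.filter fun u => i ∈ L' u).filter P) =
      ((N.filter fun u => Equiv.swap a b i ∈ L u).filter P) := by
    intro i; ext u
    simp only [Finset.mem_filter]
    constructor
    · rintro ⟨⟨h1, h2⟩, h3⟩; exact ⟨⟨h1, (l1 u i h3).1 h2⟩, h3⟩
    · rintro ⟨⟨h1, h2⟩, h3⟩; exact ⟨⟨h1, (l1 u i h3).2 h2⟩, h3⟩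
  have hx2 : ∀ i, ((N.filter fun u => i ∈ L' u).filter fun u => ¬ P u) =
      ((N.filter fun u => i ∈ L u).filter fun u => ¬ P u) := by
    intro i; ext u
    simp only [Finset.mem_filter]
    constructor
    · rintro ⟨⟨h1, h2⟩, h3⟩; exact ⟨⟨h1, l2 u h3 ▸ h2⟩, h3⟩
    · rintro ⟨⟨h1, h2⟩, h3⟩; exact ⟨⟨h1, (l2 u h3).symm ▸ h2⟩, h3⟩
  refine ⟨c', L', ⟨?_, ?_, ?_⟩, ?_, ?_, ?_⟩
  · intro x y
    simp only [c', or_comm (a := P x), h.symm x y]
  · intro x y hxy
    by_cases hx : P x
    · rw [c1 x y hx]; exact hsw _ (h.mem x y hxy)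
    · rw [c2 x y hxy hx]; exact h.mem x y hxy
  · intro x y z hy hz e
    by_cases hx : P x
    · rw [c1 x y hx, c1 x z hx] at e
      exact h.inj x y z hy hz ((Equiv.swap a b).injective e)
    · rw [c2 x y hy hx, c2 x z hz hx] at e
      exact h.inj x y z hy hz e
  · intro u hu
    by_cases hx : P u
    · refine ⟨fun i hi => ?_, fun w hw hi => ?_⟩
      · have := hsw _ ((hL u hu).1 ((l1 u i hx).1 hi))
        simpa using this
      · rw [l1 u _ hx, c1 u w hx] at hi
        exact (hL u hu).2 w hw (by simpa using hi)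
    · rw [l2 u hx]
      refine ⟨(hL u hu).1, fun w hw => ?_⟩
      rw [c2 u w hw hx]; exact (hL u hu).2 w hw
  · intro u
    by_cases hx : P u
    · simp only [L', hx, if_true, Finset.card_map]
    · rw [l2 u hx]
  · have hb' : b ∈ C.erase a := Finset.mem_erase.2 ⟨hne.symm, hb⟩
    rw [← Finset.add_sum_erase C _ ha, ← Finset.add_sum_erase C _ ha,
      ← Finset.add_sum_erase _ _ hb', ← Finset.add_sum_erase _ _ hb']
    have hrest : ∑ i ∈ (C.erase a).erase b, (X N L' i) ^ 2 =
        ∑ i ∈ (C.erase a).erase b, (X N L i) ^ 2 := by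
      apply Finset.sum_congr rfl
      intro i hi
      simp only [Finset.mem_erase] at hi
      rw [hx L' i, hx L i, hx1, hx2, Equiv.swap_apply_of_ne_of_ne hi.2.1 hi.1]
    rw [hrest]
    have ea := hx L a
    have eb := hx L b
    have ea' := hx L' a
    have eb' := hx L' b
    rw [hx1, hx2, Equiv.swap_apply_left] at ea'
    rw [hx1, hx2, Equiv.swap_apply_right] at eb'
    rw [ea', eb']
    rw [ea, eb] at hab ⊢
    generalize ((N.filter fun u => a ∈ L u).filter P).card = p at *
    generalize ((N.filter fun u => b ∈ L u).filter P).card = q at *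
    generalize ((N.filter fun u => a ∈ L u).filter fun u => ¬ P u).card = r at *
    generalize ((N.filter fun u => b ∈ L u).filter fun u => ¬ P u).card = s at *
    have : s < r := by omega
    nlinarith [Nat.mul_lt_mul'' hK this]

lemma sum_X {V : Type*} (C : Finset ℕ) (N : Finset V) (L : V → Finset ℕ)
    (hL : ∀ u ∈ N, L u ⊆ C) : ∑ i ∈ C, X N L i = ∑ u ∈ N, (L u).card := by
  classical
  unfold X
  simp only [Finset.card_filter]
  rw [Finset.sum_comm]
  apply Finset.sum_congr rfl
  intro u hu
  rw [← Finset.card_filter, Finset.filter_mem_eq_inter, Finset.inter_eq_right.2 (hL u hu)]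

lemma balance {V : Type*} [Fintype V] {H : SimpleGraph V} {C : Finset ℕ} (N : Finset V)
    (hN : N.card ≤ C.card) (s : V) (hs : s ∈ N) (m : ℕ) : ∀ (c : V → V → ℕ) (L : V → Finset ℕ),
    PC H C c → VL H C c N L → (L s).card = 1 → (∀ u ∈ N, u ≠ s → (L u).card = 2) →
    ∑ i ∈ C, (X N L i) ^ 2 < m →
    ∃ c' L', PC H C c' ∧ VL H C c' N L' ∧ (∀ u, (L' u).card = (L u).card) ∧
      ∃ i ∈ C, X N L' i = 1 := by
  classical
  induction m with
  | zero => intro c L _ _ _ _ h; omega
  | succ m ih =>
    intro c L h hL h1 h2 hm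
    by_cases hk : ∃ a ∈ C, ∃ b ∈ C, X N L b + 3 ≤ X N L a
    · obtain ⟨a, ha, b, hb, hab⟩ := hk
      obtain ⟨c', L', p1, p2, p3, p4⟩ := kempe h N L hL a b ha hb hab
      obtain ⟨c'', L'', q1, q2, q3, q4⟩ := ih c' L' p1 p2 (by rw [p3, h1])
        (fun u hu hus => by rw [p3, h2 u hu hus]) (by omega)
      exact ⟨c'', L'', q1, q2, fun u => by rw [q3, p3], q4⟩
    · push Not at hk
      refine ⟨c, L, h, hL, fun _ => rfl, ?_⟩
      by_contra hcon
      push Not at hcon
      have hsum := sum_X C N L (fun u hu => (hL u hu).1)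
      rw [← Finset.add_sum_erase N _ hs, h1, Finset.sum_congr rfl
        (fun u hu => h2 u (Finset.mem_of_mem_erase hu) (Finset.ne_of_mem_erase hu))] at hsum
      simp only [Finset.sum_const, smul_eq_mul] at hsum
      have hce := Finset.card_erase_add_one hs
      obtain ⟨b, hb, hb0⟩ : ∃ b ∈ C, X N L b = 0 := by
        by_contra hz
        push Not at hz
        have : ∑ _i ∈ C, 2 ≤ ∑ i ∈ C, X N L i := Finset.sum_le_sum fun i hi => by
          have := hz i hi; have := hcon i hi; omega
        simp only [Finset.sum_const, smul_eq_mul] at this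
        omega
      have : 2 ∣ ∑ i ∈ C, X N L i := Finset.dvd_sum fun i hi => by
        have := hk i hi b hb; have := hcon i hi; omega
      omega

lemma extend {V : Type*} [Fintype V] (n : ℕ) : ∀ (H : SimpleGraph V) (C : Finset ℕ)
    (N : Finset V) (c : V → V → ℕ) (L : V → Finset ℕ) (s : V), N.card = n → N.card ≤ C.card →
    PC H C c → VL H C c N L → (∀ u ∈ N, 1 ≤ (L u).card) → (∀ u ∈ N, u ≠ s → 2 ≤ (L u).card) →
    ∃ c', ∃ f : V → ℕ, PC H C c' ∧ Set.InjOn f N ∧
      ∀ u ∈ N, f u ∈ C ∧ ∀ w, H.Adj u w → c' u w ≠ f u := by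
  classical
  induction n with
  | zero =>
    intro H C N c L s hn _ h _ _ _
    have : N = ∅ := Finset.card_eq_zero.1 hn
    subst this
    exact ⟨c, fun _ => 0, h, by simp, by simp⟩
  | succ n ih =>
    intro H C N c L s0 hn hN h hL h1 h2
    obtain ⟨s, hs, h2⟩ : ∃ s ∈ N, ∀ u ∈ N, u ≠ s → 2 ≤ (L u).card := by
      by_cases hs0 : s0 ∈ N
      · exact ⟨s0, hs0, h2⟩
      · obtain ⟨s, hs⟩ : N.Nonempty := Finset.card_pos.1 (by omega)
        exact ⟨s, hs, fun u hu _ => h2 u hu (fun e => hs0 (e ▸ hu))⟩
    have hch : ∀ u, ∃ M : Finset ℕ, u ∈ N → M ⊆ L u ∧ M.card = if u = s then 1 else 2 := by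
      intro u
      by_cases hu : u ∈ N
      · obtain ⟨M, hM⟩ := Finset.exists_subset_card_eq (s := L u) (n := if u = s then 1 else 2)
          (by
            by_cases e : u = s
            · simp only [e, if_true]; exact h1 s hs
            · simp only [e, if_false]; exact h2 u hu e)
        exact ⟨M, fun _ => hM⟩
      · exact ⟨∅, fun h => absurd h hu⟩
    choose L0 hL0 using hch
    have hV0 : VL H C c N L0 := fun u hu =>
      ⟨(hL0 u hu).1.trans (hL u hu).1, fun w hw hi => (hL u hu).2 w hw ((hL0 u hu).1 hi)⟩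
    obtain ⟨c1, L1, p1, p2, p3, i, hi, p4⟩ := balance N hN s hs _ c L0 h hV0
      (by rw [(hL0 s hs).2]; simp) (fun u hu e => by rw [(hL0 u hu).2]; simp [e])
      (Nat.lt_succ_self _)
    unfold X at p4
    obtain ⟨u0, hu0⟩ := Finset.card_eq_one.1 p4
    have hu : ∀ u, (u ∈ N ∧ i ∈ L1 u) ↔ u = u0 := by
      intro u
      have := Finset.ext_iff.1 hu0 u
      simpa using this
    have hu0N := (hu u0).2 rfl
    let H' : SimpleGraph V :=
      { Adj := fun x y => H.Adj x y ∧ c1 x y ≠ i
        symm := ⟨fun x y h => ⟨h.1.symm, by rw [p1.symm y x]; exact h.2⟩⟩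
        loopless := ⟨fun x h => H.irrefl h.1⟩ }
    have hce := Finset.card_erase_add_one hu0N.1
    have hci := Finset.card_erase_add_one hi
    obtain ⟨c2, f, q1, q2, q3⟩ := ih H' (C.erase i) (N.erase u0) c1 L1 s (by omega) (by omega)
      ⟨p1.symm, fun x y h => Finset.mem_erase.2 ⟨h.2, p1.mem x y h.1⟩,
        fun x y z hy hz => p1.inj x y z hy.1 hz.1⟩
      (fun u hu' => by
        have hN' := Finset.mem_of_mem_erase hu'
        refine ⟨fun j hj => Finset.mem_erase.2 ⟨?_, (p2 u hN').1 hj⟩,
          fun w hw => (p2 u hN').2 w hw.1⟩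
        rintro rfl
        exact Finset.ne_of_mem_erase hu' ((hu u).1 ⟨hN', hj⟩))
      (fun u hu' => by
        rw [p3, (hL0 u (Finset.mem_of_mem_erase hu')).2]
        split_ifs <;> omega)
      (fun u hu' e => by
        rw [p3, (hL0 u (Finset.mem_of_mem_erase hu')).2]
        simp [e])
    have hc2 : ∀ x y, H.Adj x y → c1 x y ≠ i → c2 x y ≠ i ∧ c2 x y ∈ C := fun x y hxy e =>
      Finset.mem_erase.1 (q1.mem x y ⟨hxy, e⟩)
    refine ⟨fun x y => if c1 x y = i then i else c2 x y, fun u => if u = u0 then i else f u,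
      ⟨?_, ?_, ?_⟩, ?_, ?_⟩
    · intro x y
      simp only [p1.symm x y, q1.symm x y]
    · intro x y hxy
      by_cases e : c1 x y = i
      · simp only [e, if_true]; exact hi
      · simp only [e, if_false]; exact (hc2 x y hxy e).2
    · intro x y z hy hz e
      by_cases e1 : c1 x y = i <;> by_cases e2 : c1 x z = i
      · exact p1.inj x y z hy hz (e1.trans e2.symm)
      · simp only [e1, e2, if_true, if_false] at e
        exact absurd e.symm (hc2 x z hz e2).1
      · simp only [e1, e2, if_true, if_false] at e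
        exact absurd e (hc2 x y hy e1).1
      · simp only [e1, e2, if_false] at e
        exact q1.inj x y z ⟨hy, e1⟩ ⟨hz, e2⟩ e
    · intro x hx y hy e
      have hf : ∀ u ∈ N, u ≠ u0 → f u ≠ i := fun u hu e =>
        (Finset.mem_erase.1 (q3 u (Finset.mem_erase.2 ⟨e, hu⟩)).1).1
      by_cases e1 : x = u0 <;> by_cases e2 : y = u0
      · rw [e1, e2]
      · simp only [e1, e2, if_true, if_false] at e
        exact absurd e.symm (hf y hy e2)
      · simp only [e1, e2, if_true, if_false] at e
        exact absurd e (hf x hx e1)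
      · simp only [e1, e2, if_false] at e
        exact q2 (by simpa using ⟨hx, e1⟩) (by simpa using ⟨hy, e2⟩) e
    · intro u huN
      by_cases e : u = u0
      · subst e
        simp only [if_true]
        refine ⟨hi, fun w hw => ?_⟩
        have : c1 u w ≠ i := fun e => (p2 u huN).2 w hw (e ▸ hu0N.2)
        simp only [this, if_false]
        exact (hc2 u w hw this).1
      · simp only [e, if_false]
        have := q3 u (Finset.mem_erase.2 ⟨e, huN⟩)
        refine ⟨Finset.mem_of_mem_erase this.1, fun w hw => ?_⟩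
        by_cases e1 : c1 u w = i
        · simp only [e1, if_true]
          exact (Finset.mem_erase.1 this.1).1.symm
        · simp only [e1, if_false]
          exact this.2 w ⟨hw, e1⟩

/-- Vizing's theorem: all degrees below the number of colours. -/
theorem vizing {V : Type*} [Fintype V] (G : SimpleGraph V) [DecidableRel G.Adj] (C : Finset ℕ)
    (hd : ∀ v, G.degree v < C.card) : ∃ c, PC G C c := by
  classical
  let R : Finset V → SimpleGraph V := fun S =>
    { Adj := fun x y => G.Adj x y ∧ x ∈ S ∧ y ∈ S
      symm := ⟨fun x y h => ⟨h.1.symm, h.2.2, h.2.1⟩⟩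
      loopless := ⟨fun x h => G.irrefl h.1⟩ }
  have main : ∀ S : Finset V, ∃ c, PC (R S) C c := by
    intro S
    induction S using Finset.induction_on with
    | empty => exact ⟨fun _ _ => 0, fun _ _ => rfl, fun x y h => by simp [R] at h,
        fun x y z h => by simp [R] at h⟩
    | insert v S hv ih =>
      obtain ⟨c, hc⟩ := ih
      let N := (G.neighborFinset v).filter (· ∈ S)
      let L : V → Finset ℕ := fun u => C \ ((G.neighborFinset u).filter (· ∈ S)).image (c u)
      have hL2 : ∀ u ∈ N, 2 ≤ (L u).card := by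
        intro u hu
        simp only [N, Finset.mem_filter, SimpleGraph.mem_neighborFinset] at hu
        have a1 : ((G.neighborFinset u).filter (· ∈ S)).card < (G.neighborFinset u).card := by
          apply Finset.card_lt_card
          refine ⟨Finset.filter_subset _ _, fun hsub => ?_⟩
          have := hsub ((G.mem_neighborFinset u v).2 hu.1.symm)
          exact hv (Finset.mem_filter.1 this).2
        have a2 := Finset.card_image_le (s := (G.neighborFinset u).filter (· ∈ S)) (f := c u)
        have a3 := Finset.le_card_sdiff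
          (((G.neighborFinset u).filter (· ∈ S)).image (c u)) C
        have a4 := hd u
        rw [SimpleGraph.card_neighborFinset_eq_degree] at a1
        simp only [L]
        omega
      obtain ⟨c', f, q1, q2, q3⟩ := extend _ (R S) C N c L v rfl
        (by
          have := Finset.card_filter_le (G.neighborFinset v) (· ∈ S)
          rw [SimpleGraph.card_neighborFinset_eq_degree] at this
          have := hd v
          simp only [N]; omega) hc
        (fun u _ => ⟨Finset.sdiff_subset, fun w hw hi => (Finset.mem_sdiff.1 hi).2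
          (Finset.mem_image_of_mem _ (by simpa using ⟨hw.1, hw.2.2⟩))⟩)
        (fun u hu => by have := hL2 u hu; omega) (fun u hu _ => hL2 u hu)
      have hN : ∀ y, G.Adj v y → y ∈ insert v S → y ∈ N := by
        intro y hy hyS
        simp only [N, Finset.mem_filter, SimpleGraph.mem_neighborFinset]
        exact ⟨hy, (Finset.mem_insert.1 hyS).resolve_left hy.ne.symm⟩
      have hR : ∀ x y, (R (insert v S)).Adj x y → x ≠ v → y ≠ v → (R S).Adj x y :=
        fun x y h hx hy => ⟨h.1, (Finset.mem_insert.1 h.2.1).resolve_left hx,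
          (Finset.mem_insert.1 h.2.2).resolve_left hy⟩
      refine ⟨fun x y => if x = v then f y else if y = v then f x else c' x y, ?_, ?_, ?_⟩
      · intro x y
        by_cases e1 : x = v <;> by_cases e2 : y = v <;> simp [e1, e2, q1.symm x y]
      · intro x y h
        by_cases e1 : x = v
        · subst e1
          simp only [if_true]
          exact (q3 y (hN y h.1 h.2.2)).1
        · by_cases e2 : y = v
          · subst e2
            simp only [e1, if_true, if_false]
            exact (q3 x (hN x h.1.symm h.2.1)).1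
          · simp only [e1, e2, if_false]
            exact q1.mem x y (hR x y h e1 e2)
      · intro x y z hy hz e
        by_cases e1 : x = v
        · subst e1
          simp only [if_true] at e
          exact q2 (hN y hy.1 hy.2.2) (hN z hz.1 hz.2.2) e
        · by_cases e2 : y = v <;> by_cases e3 : z = v
          · rw [e2, e3]
          · subst e2
            simp only [e1, e3, if_true, if_false] at e
            exact absurd e.symm ((q3 x (hN x hy.1.symm hy.2.1)).2 z (hR x z hz e1 e3))
          · subst e3
            simp only [e1, e2, if_true, if_false] at e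
            exact absurd e ((q3 x (hN x hz.1.symm hz.2.1)).2 y (hR x y hy e1 e2))
          · simp only [e1, e2, e3, if_false] at e
            exact q1.inj x y z (hR x y hy e1 e2) (hR x z hz e1 e3) e
  obtain ⟨c, hc⟩ := main Finset.univ
  exact ⟨c, hc.symm, fun x y h => hc.mem x y ⟨h, by simp, by simp⟩,
    fun x y z hy hz => hc.inj x y z ⟨hy, by simp, by simp⟩ ⟨hz, by simp, by simp⟩⟩

end Pool.Agent.H.MP_7b5b6d_co
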